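import Pool.Agent.TH117.CZ.HConverse

/-!
# Which cases of the product formula of Colmez follow from the known ones
-/

set_option autoImplicit false

namespace Pool.Agent.Results.MP_a2beea_nt.GroupCriterion

open Pool.Agent.TH117.CZ

theorem result (G : Type) [Group G] [Fintype G] (c : G) (hc : IsConjugation c) :
    (∀ (H : Subgroup G) (ψ : G ⧸ H) (Φ : Finset (G ⧸ H)), IsCMType c Φ →
      (a0 ψ Φ ∈ knownSpan c ↔ IsRational (a0 ψ Φ)) ∧
      (height Φ ∈ knownSpan c ↔ IsRational (height Φ))) ∧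
    ((∀ (H : Subgroup G) (ψ : G ⧸ H) (Φ : Finset (G ⧸ H)), IsCMType c Φ →
      a0 ψ Φ ∈ knownSpan c) ↔ IsGoodGroup c) ∧
    ((∀ (H : Subgroup G) (Φ : Finset (G ⧸ H)), IsCMType c Φ →
      height Φ ∈ knownSpan c) ↔ IsGoodForHeights c) ∧
    ((∀ g : G, g ^ 4 = 1 ∨ g ^ 6 = 1) →
      ∀ (H : Subgroup G) (Φ : Finset (G ⧸ H)), IsCMType c Φ → height Φ ∈ knownSpan c) := by
  have h1 : ∀ (H : Subgroup G) (ψ : G ⧸ H) (Φ : Finset (G ⧸ H)), IsCMType c Φ →
      (a0 ψ Φ ∈ knownSpan c ↔ IsRational (a0 ψ Φ)) ∧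
      (height Φ ∈ knownSpan c ↔ IsRational (height Φ)) := fun H ψ Φ hΦ =>
    ⟨⟨isRational_of_mem hc, mem_of_isRational hc (a0_class ψ Φ) (a0_compl hc ψ hΦ)⟩,
      ⟨isRational_of_mem hc, mem_of_isRational hc (height_class Φ) (height_compl hc hΦ)⟩⟩
  have h3 : IsGoodForHeights c → ∀ (H : Subgroup G) (Φ : Finset (G ⧸ H)), IsCMType c Φ →
      height Φ ∈ knownSpan c := fun h H Φ hΦ =>
    mem_of_isRational hc (height_class Φ) (height_compl hc hΦ)
      (isRational_of_goodForHeights hc h (height_class Φ) (height_compl hc hΦ) (height_inv Φ))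
  refine ⟨h1, ⟨fun h => ?_, fun h H ψ Φ hΦ => ?_⟩, ⟨fun h => ?_, h3⟩, fun h =>
    h3 (goodForHeights_of_exponent hc h)⟩
  · exact good_of_rational hc (oddCnt_rational hc fun ψ Φ hΦ => isRational_of_mem hc (h _ ψ Φ hΦ))
  · exact mem_of_isRational hc (a0_class ψ Φ) (a0_compl hc ψ hΦ)
      (isRational_of_good hc h (a0_class ψ Φ) (a0_compl hc ψ hΦ))
  · exact goodForHeights_of_rational hc
      (symCnt_rational hc fun Φ hΦ => isRational_of_mem hc (h _ Φ hΦ))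

end Pool.Agent.Results.MP_a2beea_nt.GroupCriterion
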